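import Mathlib

/-!
# Sets avoiding near-integer distances for general norms

For every real exponent `κ` there are a dimension `d`, a constant `δ` in `(0, 1/2)` and a norm
on `ℝ^d` such that the maximal number of points in a ball of radius `X` all of whose mutual
distances are at least `δ` away from every integer grows faster than `X ^ κ`.  With `κ = 1`
this is a positive answer to Q1.

Construction: `d = 2 m`, the norm is the sum of the Euclidean norms of the `m` planar blocks, and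
the set is the `m`-fold product of the planar sets
`{ ∑ b_s (R * R^(2s), √(2 θ R) * R^s) : b ∈ {0,1}^S }` with `R = 8 m`, `θ = 1 / (m + 1)`;
all nonzero distances in a planar set are `θ` modulo one up to an error at most `4 θ / R`.
-/

namespace Pool.Agent.Results.MP_af7c6a_co.AnyPolynomialGrowth

open Filter

/-- Distance from a real number to the nearest integer. -/
noncomputable def distInt (t : ℝ) : ℝ := |t - (round t : ℝ)|

/-- `N` is a norm on `ℝ^d` (nonnegativity follows from the listed properties). -/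
structure IsNorm {d : ℕ} (N : (Fin d → ℝ) → ℝ) : Prop where
  eq_zero : ∀ x, N x = 0 → x = 0
  smul : ∀ (c : ℝ) (x : Fin d → ℝ), N (c • x) = |c| * N x
  add_le : ∀ x y, N (x + y) ≤ N x + N y

/-- There are `n` points in a closed `N`-ball of radius `X` all of whose mutual distances are
at least `δ` away from the nearest integer. -/
def Admissible {d : ℕ} (N : (Fin d → ℝ) → ℝ) (X δ : ℝ) (n : ℕ) : Prop :=
  ∃ (c : Fin d → ℝ) (p : Fin n → Fin d → ℝ),
    (∀ i, N (p i - c) ≤ X) ∧ ∀ i j, i ≠ j → δ ≤ distInt (N (p i - p j))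

/-- The largest `n` for which `n` such points exist. -/
noncomputable def maxPts {d : ℕ} (N : (Fin d → ℝ) → ℝ) (X δ : ℝ) : ℕ :=
  sSup {n : ℕ | Admissible N X δ n}

/-! ### Arithmetic of the planar blocks -/

lemma abs_sum_le (Q : ℝ) (hQ : 2 ≤ Q) (e : ℕ → ℝ) (he : ∀ s, |e s| ≤ 1) (t : ℕ) :
    |∑ s ∈ Finset.range t, e s * Q ^ s| * (Q - 1) ≤ Q ^ t := by
  have h1 : |∑ s ∈ Finset.range t, e s * Q ^ s| ≤ ∑ s ∈ Finset.range t, Q ^ s := by
    refine (Finset.abs_sum_le_sum_abs _ _).trans (Finset.sum_le_sum ?_)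
    intro s _
    rw [abs_mul, abs_of_nonneg (by positivity : (0:ℝ) ≤ Q ^ s)]
    have : (0:ℝ) ≤ Q ^ s := by positivity
    nlinarith [he s]
  have h2 : (∑ s ∈ Finset.range t, Q ^ s) * (Q - 1) = Q ^ t - 1 := by
    exact geom_sum_mul Q t
  have h3 : |∑ s ∈ Finset.range t, e s * Q ^ s| * (Q - 1)
      ≤ (∑ s ∈ Finset.range t, Q ^ s) * (Q - 1) :=
    mul_le_mul_of_nonneg_right h1 (by linarith)
  linarith

lemma top_bounds (Q : ℝ) (hQ : 2 ≤ Q) (e : ℕ → ℝ) (he : ∀ s, |e s| ≤ 1) (t : ℕ)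
    (ht : |e t| = 1) :
    Q ^ t * (Q - 2) ≤ |∑ s ∈ Finset.range (t + 1), e s * Q ^ s| * (Q - 1) ∧
    |∑ s ∈ Finset.range (t + 1), e s * Q ^ s| * (Q - 1) ≤ Q ^ t * Q := by
  have h := abs_sum_le Q hQ e he t
  rw [Finset.sum_range_succ]
  set A := ∑ s ∈ Finset.range t, e s * Q ^ s
  have hq : |e t * Q ^ t| = Q ^ t := by
    rw [abs_mul, ht, one_mul, abs_of_nonneg (by positivity)]
  have h1 : |A + e t * Q ^ t| ≤ |A| + Q ^ t := by
    have := abs_add_le A (e t * Q ^ t)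
    rwa [hq] at this
  have h2 : Q ^ t - |A| ≤ |A + e t * Q ^ t| := by
    have := abs_sub_abs_le_abs_sub (e t * Q ^ t) (-A)
    rw [hq, abs_neg] at this
    have h3 : e t * Q ^ t - -A = A + e t * Q ^ t := by ring
    rwa [h3] at this
  have hQ1 : 0 ≤ Q - 1 := by linarith
  constructor
  · nlinarith [mul_le_mul_of_nonneg_right h2 hQ1]
  · nlinarith [mul_le_mul_of_nonneg_right h1 hQ1]

/-- The ratio `B² / |A|` is close to one. -/
lemma ratio_bounds (R : ℝ) (hR : 8 ≤ R) (e : ℕ → ℝ) (he : ∀ s, |e s| ≤ 1) (t : ℕ)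
    (ht : |e t| = 1) (A B : ℝ)
    (hA : A = ∑ s ∈ Finset.range (t + 1), e s * (R ^ 2) ^ s)
    (hB : B = ∑ s ∈ Finset.range (t + 1), e s * R ^ s) :
    B ^ 2 * R ≤ (R + 3) * |A| ∧ (R - 3) * |A| ≤ B ^ 2 * R ∧ 1 / 2 ≤ |A| := by
  have hR2 : 2 ≤ R ^ 2 := by nlinarith
  obtain ⟨a1, a2⟩ := top_bounds (R ^ 2) hR2 e he t ht
  obtain ⟨b1, b2⟩ := top_bounds R (by linarith) e he t ht
  rw [← hA] at a1 a2
  rw [← hB] at b1 b2
  have hu : (1:ℝ) ≤ R ^ t := one_le_pow₀ (by linarith)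
  have hpow : (R ^ 2) ^ t = R ^ t * R ^ t := by
    rw [← pow_mul, ← pow_add]; congr 1; ring
  rw [hpow] at a1 a2
  set u := R ^ t
  have hA0 : 0 ≤ |A| := abs_nonneg A
  have hB0 : 0 ≤ |B| := abs_nonneg B
  have hBB : B ^ 2 = |B| ^ 2 := (sq_abs B).symm
  rw [hBB]
  set a := |A|
  set b := |B|
  have hR1 : 0 < R - 1 := by linarith
  refine ⟨?_, ?_, ?_⟩
  · -- upper bound
    have s1 : (b * (R - 1)) ^ 2 ≤ (u * R) ^ 2 := pow_le_pow_left₀ (by positivity) b2 2
    have s2 : (u * R) ^ 2 * (R ^ 2 - 2) ≤ a * (R ^ 2 - 1) * R ^ 2 := by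
      have := mul_le_mul_of_nonneg_right a1 (by positivity : (0:ℝ) ≤ R ^ 2)
      nlinarith [this]
    have hR22 : 0 ≤ R ^ 2 - 2 := by linarith
    have s3 : (b * (R - 1)) ^ 2 * (R ^ 2 - 2) ≤ a * (R ^ 2 - 1) * R ^ 2 :=
      (mul_le_mul_of_nonneg_right s1 hR22).trans s2
    -- divide by (R-1)
    have s4 : b ^ 2 * (R - 1) * (R ^ 2 - 2) ≤ a * (R + 1) * R ^ 2 := by
      have h : (R - 1) * (b ^ 2 * (R - 1) * (R ^ 2 - 2)) ≤ (R - 1) * (a * (R + 1) * R ^ 2) := by
        nlinarith [s3]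
      exact le_of_mul_le_mul_left h hR1
    have s5 : (R + 1) * R ^ 2 * R ≤ (R + 3) * ((R - 1) * (R ^ 2 - 2)) := by nlinarith
    have hP : 0 < (R - 1) * (R ^ 2 - 2) := by
      apply mul_pos hR1; nlinarith
    have s6 : ((R - 1) * (R ^ 2 - 2)) * (b ^ 2 * R) ≤ ((R - 1) * (R ^ 2 - 2)) * ((R + 3) * a) := by
      calc ((R - 1) * (R ^ 2 - 2)) * (b ^ 2 * R) = (b ^ 2 * (R - 1) * (R ^ 2 - 2)) * R := by ring
        _ ≤ (a * (R + 1) * R ^ 2) * R := mul_le_mul_of_nonneg_right s4 (by linarith)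
        _ = a * ((R + 1) * R ^ 2 * R) := by ring
        _ ≤ a * ((R + 3) * ((R - 1) * (R ^ 2 - 2))) := mul_le_mul_of_nonneg_left s5 hA0
        _ = _ := by ring
    exact le_of_mul_le_mul_left s6 hP
  · -- lower bound
    have s1 : (u * (R - 2)) ^ 2 ≤ (b * (R - 1)) ^ 2 :=
      pow_le_pow_left₀ (by
        have : 0 ≤ R - 2 := by linarith
        positivity) b1 2
    have hR11 : 0 < R ^ 2 - 1 := by nlinarith
    -- a (R²-1) ≤ u² R²
    have s2 : a * (R ^ 2 - 1) * (R - 2) ^ 2 ≤ u * u * R ^ 2 * (R - 2) ^ 2 :=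
      mul_le_mul_of_nonneg_right a2 (by positivity)
    have s3 : u * u * R ^ 2 * (R - 2) ^ 2 ≤ (b * (R - 1)) ^ 2 * R ^ 2 := by
      have := mul_le_mul_of_nonneg_right s1 (by positivity : (0:ℝ) ≤ R ^ 2)
      nlinarith [this]
    have s4 : (R - 1) * (a * (R + 1) * (R - 2) ^ 2) ≤ (R - 1) * (b ^ 2 * (R - 1) * R ^ 2) := by
      nlinarith [s2.trans s3]
    have s5 : a * (R + 1) * (R - 2) ^ 2 ≤ b ^ 2 * (R - 1) * R ^ 2 :=
      le_of_mul_le_mul_left s4 hR1
    have s6 : (R - 3) * ((R - 1) * R ^ 2) ≤ (R + 1) * (R - 2) ^ 2 * R := by nlinarith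
    have hP : 0 < (R - 1) * R ^ 2 := by positivity
    have s7 : ((R - 1) * R ^ 2) * ((R - 3) * a) ≤ ((R - 1) * R ^ 2) * (b ^ 2 * R) := by
      calc ((R - 1) * R ^ 2) * ((R - 3) * a) = a * ((R - 3) * ((R - 1) * R ^ 2)) := by ring
        _ ≤ a * ((R + 1) * (R - 2) ^ 2 * R) := mul_le_mul_of_nonneg_left s6 hA0
        _ = (a * (R + 1) * (R - 2) ^ 2) * R := by ring
        _ ≤ (b ^ 2 * (R - 1) * R ^ 2) * R := mul_le_mul_of_nonneg_right s5 (by linarith)
        _ = _ := by ring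
    exact le_of_mul_le_mul_left s7 hP
  · have h1 : (R ^ 2 - 2) ≤ a * (R ^ 2 - 1) := by
      have : (R ^ 2 - 2) ≤ u * u * (R ^ 2 - 2) := by
        have h2 : (1:ℝ) ≤ u * u := by nlinarith
        have h3 : 0 ≤ R ^ 2 - 2 := by linarith
        nlinarith
      linarith
    by_contra hcon
    push Not at hcon
    nlinarith

/-- The distance within a planar block is `θ` modulo one up to `4 θ / R`. -/
lemma block_dist (R θ : ℝ) (hR : 8 ≤ R) (hθ : 0 < θ) (hθ1 : θ ≤ 1) (A B : ℝ)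
    (h1 : B ^ 2 * R ≤ (R + 3) * |A|) (h2 : (R - 3) * |A| ≤ B ^ 2 * R) (h3 : 1 / 2 ≤ |A|) :
    |Real.sqrt ((R * A) ^ 2 + 2 * θ * R * B ^ 2) - R * |A| - θ| ≤ 4 * θ / R := by
  have hR0 : 0 < R := by linarith
  set a := |A|
  have haa : (R * A) ^ 2 = (R * a) ^ 2 := by
    rw [mul_pow, mul_pow, ← sq_abs A]
  rw [haa]
  have key1 : Real.sqrt ((R * a) ^ 2 + 2 * θ * R * B ^ 2) ≤ R * a + θ * (1 + 3 / R) := by
    apply Real.sqrt_le_iff.mpr
    constructor
    · positivity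
    · have e1 : 2 * θ * R * B ^ 2 ≤ 2 * θ * ((R + 3) * a) := by nlinarith
      have e2 : (R * a + θ * (1 + 3 / R)) ^ 2
          = (R * a) ^ 2 + 2 * θ * ((R + 3) * a) + (θ * (1 + 3 / R)) ^ 2 := by
        field_simp
        ring
      rw [e2]
      have : 0 ≤ (θ * (1 + 3 / R)) ^ 2 := sq_nonneg _
      linarith
  have key2 : R * a + θ * (1 - 4 / R) ≤ Real.sqrt ((R * a) ^ 2 + 2 * θ * R * B ^ 2) := by
    apply Real.le_sqrt_of_sq_le
    have e1 : 2 * θ * ((R - 3) * a) ≤ 2 * θ * R * B ^ 2 := by nlinarith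
    have e2 : (R * a + θ * (1 - 4 / R)) ^ 2
        = (R * a) ^ 2 + 2 * θ * ((R - 4) * a) + (θ * (1 - 4 / R)) ^ 2 := by
      field_simp
      ring
    rw [e2]
    have e3 : (θ * (1 - 4 / R)) ^ 2 ≤ θ := by
      have h4 : 4 / R ≤ 1 := by rw [div_le_one hR0]; linarith
      have h5 : 0 ≤ 4 / R := by positivity
      have h6 : 0 ≤ 1 - 4 / R := by linarith
      have h7 : θ * (1 - 4 / R) ≤ 1 := by nlinarith
      have h8 : θ * (1 - 4 / R) ≤ θ := by nlinarith
      have h9 : 0 ≤ θ * (1 - 4 / R) := by positivity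
      nlinarith
    nlinarith
  have h4R : θ * (4 / R) = 4 * θ / R := by ring
  rw [abs_le]
  constructor
  · have : θ * (1 - 4 / R) = θ - 4 * θ / R := by ring
    linarith
  · have e5 : θ * (1 + 3 / R) ≤ θ + 4 * θ / R := by
      have : θ * (1 + 3 / R) = θ + 3 * θ / R := by ring
      have h6 : 3 * θ / R ≤ 4 * θ / R := by
        apply div_le_div_of_nonneg_right _ hR0.le
        linarith
      linarith
    linarith

/-- Zero-one digits of a block word, extended by zero. -/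
noncomputable def cf {S : ℕ} (b : Fin S → Bool) (s : ℕ) : ℝ :=
  if h : s < S then (if b ⟨s, h⟩ = true then 1 else 0) else 0

lemma cf_mem {S : ℕ} (b : Fin S → Bool) (s : ℕ) : cf b s = 0 ∨ cf b s = 1 := by
  unfold cf
  split_ifs <;> simp

lemma cf_sub_abs_le {S : ℕ} (b b' : Fin S → Bool) (s : ℕ) : |cf b s - cf b' s| ≤ 1 := by
  rcases cf_mem b s with h | h <;> rcases cf_mem b' s with h' | h' <;> simp [h, h']

lemma exists_top {S : ℕ} (b b' : Fin S → Bool) (h : b ≠ b') :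
    ∃ t, |cf b t - cf b' t| = 1 ∧ t < S ∧ ∀ s, t < s → cf b s - cf b' s = 0 := by
  classical
  obtain ⟨k, hk⟩ := Function.ne_iff.mp h
  set T : Finset ℕ := (Finset.range S).filter (fun s => cf b s ≠ cf b' s) with hT
  have hmem : ∀ s, s ∈ T ↔ s < S ∧ cf b s ≠ cf b' s := by
    intro s
    rw [hT, Finset.mem_filter, Finset.mem_range]
  have hne : T.Nonempty := by
    refine ⟨k.1, ?_⟩
    rw [hmem]
    refine ⟨k.2, ?_⟩
    unfold cf
    rw [dif_pos k.2, dif_pos k.2]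
    intro hc
    apply hk
    rcases hb : b k with _ | _ <;> rcases hb' : b' k with _ | _ <;> simp_all
  refine ⟨T.max' hne, ?_, ?_, ?_⟩
  · obtain ⟨_, h2⟩ := (hmem _).mp (T.max'_mem hne)
    rcases cf_mem b (T.max' hne) with h | h <;>
      rcases cf_mem b' (T.max' hne) with h' | h' <;> simp_all
  · exact ((hmem _).mp (T.max'_mem hne)).1
  · intro s hs
    by_contra hcon
    have hs' : s ∈ T := by
      rw [hmem]
      refine ⟨?_, fun hh => hcon (by rw [hh]; ring)⟩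
      by_contra hS
      apply hcon
      unfold cf
      rw [dif_neg hS, dif_neg hS]
      ring
    exact absurd (T.le_max' s hs') (by omega)

/-- The two coordinate sums of a word. -/
noncomputable def sm {S : ℕ} (Q : ℝ) (b : Fin S → Bool) : ℝ :=
  ∑ s ∈ Finset.range S, cf b s * Q ^ s

lemma sm_sub {S : ℕ} (Q : ℝ) (b b' : Fin S → Bool) (t : ℕ) (ht : t < S)
    (hz : ∀ s, t < s → cf b s - cf b' s = 0) :
    sm Q b - sm Q b' = ∑ s ∈ Finset.range (t + 1), (cf b s - cf b' s) * Q ^ s := by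
  unfold sm
  rw [← Finset.sum_sub_distrib]
  have h1 : ∀ s, cf b s * Q ^ s - cf b' s * Q ^ s = (cf b s - cf b' s) * Q ^ s := by
    intro s; ring
  simp_rw [h1]
  symm
  apply Finset.sum_subset
  · intro s hs
    rw [Finset.mem_range] at hs ⊢
    omega
  · intro s _ hs
    rw [Finset.mem_range] at hs
    rw [hz s (by omega), zero_mul]

lemma sm_nat {S : ℕ} (Q : ℕ) (b : Fin S → Bool) : ∃ n : ℕ, (n : ℝ) = sm (Q : ℝ) b := by
  classical
  have : ∀ s, ∃ n : ℕ, (n : ℝ) = cf b s * (Q : ℝ) ^ s := by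
    intro s
    rcases cf_mem b s with h | h
    · exact ⟨0, by rw [h]; simp⟩
    · exact ⟨Q ^ s, by rw [h]; push_cast; ring⟩
  choose f hf using this
  refine ⟨∑ s ∈ Finset.range S, f s, ?_⟩
  unfold sm
  push_cast
  exact Finset.sum_congr rfl (fun s _ => hf s)

lemma sm_nonneg {S : ℕ} (Q : ℝ) (hQ : 0 ≤ Q) (b : Fin S → Bool) : 0 ≤ sm Q b := by
  unfold sm
  apply Finset.sum_nonneg
  intro s _
  rcases cf_mem b s with h | h <;> rw [h] <;> positivity

lemma sm_le {S : ℕ} (Q : ℝ) (hQ : 2 ≤ Q) (b : Fin S → Bool) : sm Q b ≤ Q ^ S := by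
  have h := abs_sum_le Q hQ (cf b) (by
    intro s
    rcases cf_mem b s with h | h <;> rw [h] <;> simp) S
  have h0 : |sm Q b| * (Q - 1) ≤ Q ^ S := h
  have h1 : |sm Q b| ≤ |sm Q b| * (Q - 1) := by
    nlinarith [abs_nonneg (sm Q b)]
  exact (le_abs_self _).trans (h1.trans h0)

/-- Distances inside one planar block. -/
lemma planar (R : ℕ) (θ : ℝ) (hR : 8 ≤ R) (hθ : 0 < θ) (hθ1 : θ ≤ 1) {S : ℕ}
    (b b' : Fin S → Bool) (h : b ≠ b') :
    ∃ z : ℤ, |Real.sqrt (((R : ℝ) * sm ((R : ℝ) ^ 2) b - R * sm ((R : ℝ) ^ 2) b') ^ 2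
      + (Real.sqrt (2 * θ * R) * sm (R : ℝ) b - Real.sqrt (2 * θ * R) * sm (R : ℝ) b') ^ 2)
      - z - θ| ≤ 4 * θ / R := by
  have hRr : (8 : ℝ) ≤ (R : ℝ) := by exact_mod_cast hR
  obtain ⟨t, ht, htS, hz⟩ := exists_top b b' h
  have hA := sm_sub ((R : ℝ) ^ 2) b b' t htS hz
  have hB := sm_sub (R : ℝ) b b' t htS hz
  obtain ⟨h1, h2, h3⟩ := ratio_bounds (R : ℝ) hRr (fun s => cf b s - cf b' s)
    (cf_sub_abs_le b b') t ht _ _ hA hB
  have key := block_dist (R : ℝ) θ hRr hθ hθ1 _ _ h1 h2 h3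
  obtain ⟨n, hn⟩ := sm_nat (R ^ 2) b
  obtain ⟨n', hn'⟩ := sm_nat (R ^ 2) b'
  push_cast at hn hn'
  refine ⟨(R : ℤ) * |(n : ℤ) - n'|, ?_⟩
  have e1 : (((R : ℤ) * |(n : ℤ) - n'| : ℤ) : ℝ)
      = (R : ℝ) * |sm ((R : ℝ) ^ 2) b - sm ((R : ℝ) ^ 2) b'| := by
    push_cast
    rw [hn, hn']
  have e2 : ((R : ℝ) * sm ((R : ℝ) ^ 2) b - R * sm ((R : ℝ) ^ 2) b') ^ 2
      + (Real.sqrt (2 * θ * R) * sm (R : ℝ) b - Real.sqrt (2 * θ * R) * sm (R : ℝ) b') ^ 2
      = ((R : ℝ) * (sm ((R : ℝ) ^ 2) b - sm ((R : ℝ) ^ 2) b')) ^ 2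
        + 2 * θ * R * (sm (R : ℝ) b - sm (R : ℝ) b') ^ 2 := by
    have hs : Real.sqrt (2 * θ * R) ^ 2 = 2 * θ * R := Real.sq_sqrt (by positivity)
    rw [← mul_sub, ← mul_sub, mul_pow (Real.sqrt (2 * θ * R)), hs]
  rw [e1, e2]
  exact key

/-! ### The norm -/

/-- Sum of the Euclidean norms of the `m` planar blocks. -/
noncomputable def bn (m : ℕ) (x : Fin (m * 2) → ℝ) : ℝ :=
  ∑ j : Fin m, Real.sqrt (x (finProdFinEquiv (j, 0)) ^ 2 + x (finProdFinEquiv (j, 1)) ^ 2)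

lemma mink (a b c d : ℝ) : Real.sqrt ((a + c) ^ 2 + (b + d) ^ 2)
    ≤ Real.sqrt (a ^ 2 + b ^ 2) + Real.sqrt (c ^ 2 + d ^ 2) := by
  apply Real.sqrt_le_iff.mpr
  refine ⟨by positivity, ?_⟩
  have h1 : Real.sqrt (a ^ 2 + b ^ 2) ^ 2 = a ^ 2 + b ^ 2 := Real.sq_sqrt (by positivity)
  have h2 : Real.sqrt (c ^ 2 + d ^ 2) ^ 2 = c ^ 2 + d ^ 2 := Real.sq_sqrt (by positivity)
  have h3 : a * c + b * d ≤ Real.sqrt (a ^ 2 + b ^ 2) * Real.sqrt (c ^ 2 + d ^ 2) := by
    rw [← Real.sqrt_mul (by positivity)]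
    apply Real.le_sqrt_of_sq_le
    nlinarith [sq_nonneg (a * d - b * c)]
  nlinarith

lemma bn_isNorm (m : ℕ) : IsNorm (bn m) := by
  refine ⟨?_, ?_, ?_⟩
  · intro x hx
    unfold bn at hx
    rw [Finset.sum_eq_zero_iff_of_nonneg (fun _ _ => Real.sqrt_nonneg _)] at hx
    have h : ∀ j : Fin m, x (finProdFinEquiv (j, 0)) = 0 ∧ x (finProdFinEquiv (j, 1)) = 0 := by
      intro j
      have h1 := hx j (Finset.mem_univ j)
      rw [Real.sqrt_eq_zero (by positivity)] at h1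
      constructor
      · nlinarith [sq_nonneg (x (finProdFinEquiv (j, 0))), sq_nonneg (x (finProdFinEquiv (j, 1)))]
      · nlinarith [sq_nonneg (x (finProdFinEquiv (j, 0))), sq_nonneg (x (finProdFinEquiv (j, 1)))]
    funext i
    obtain ⟨q, rfl⟩ := finProdFinEquiv.surjective i
    obtain ⟨j, l⟩ := q
    fin_cases l
    · exact (h j).1
    · exact (h j).2
  · intro c x
    unfold bn
    rw [Finset.mul_sum]
    apply Finset.sum_congr rfl
    intro j _
    simp only [Pi.smul_apply, smul_eq_mul]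
    rw [mul_pow, mul_pow, ← mul_add, Real.sqrt_mul (sq_nonneg c), Real.sqrt_sq_eq_abs]
  · intro x y
    unfold bn
    rw [← Finset.sum_add_distrib]
    apply Finset.sum_le_sum
    intro j _
    simp only [Pi.add_apply]
    exact mink _ _ _ _

lemma abs_le_bn (m : ℕ) (x : Fin (m * 2) → ℝ) (i : Fin (m * 2)) : |x i| ≤ bn m x := by
  obtain ⟨q, rfl⟩ := finProdFinEquiv.surjective i
  obtain ⟨j, l⟩ := q
  have h1 : Real.sqrt (x (finProdFinEquiv (j, 0)) ^ 2 + x (finProdFinEquiv (j, 1)) ^ 2)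
      ≤ bn m x := by
    unfold bn
    exact Finset.single_le_sum
      (f := fun j : Fin m => Real.sqrt (x (finProdFinEquiv (j, 0)) ^ 2
        + x (finProdFinEquiv (j, 1)) ^ 2)) (fun _ _ => Real.sqrt_nonneg _) (Finset.mem_univ j)
  refine le_trans ?_ h1
  fin_cases l
  · change |x (finProdFinEquiv (j, 0))| ≤ _
    apply Real.abs_le_sqrt
    nlinarith [sq_nonneg (x (finProdFinEquiv (j, 1)))]
  · change |x (finProdFinEquiv (j, 1))| ≤ _
    apply Real.abs_le_sqrt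
    nlinarith [sq_nonneg (x (finProdFinEquiv (j, 0)))]

lemma bn_le (m : ℕ) (x : Fin (m * 2) → ℝ) (c : ℝ) (hc : ∀ i, |x i| ≤ c) :
    bn m x ≤ m * (2 * c) := by
  unfold bn
  have : ∀ j : Fin m, Real.sqrt (x (finProdFinEquiv (j, 0)) ^ 2
      + x (finProdFinEquiv (j, 1)) ^ 2) ≤ 2 * c := by
    intro j
    have h0 := hc (finProdFinEquiv (j, 0))
    have h1 := hc (finProdFinEquiv (j, 1))
    have hc0 : 0 ≤ c := (abs_nonneg _).trans h0
    apply Real.sqrt_le_iff.mpr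
    refine ⟨by positivity, ?_⟩
    have h2 := sq_le_sq' (abs_le.mp h0).1 (abs_le.mp h0).2
    have h3 := sq_le_sq' (abs_le.mp h1).1 (abs_le.mp h1).2
    nlinarith
  calc _ ≤ ∑ _j : Fin m, 2 * c := Finset.sum_le_sum (fun j _ => this j)
    _ = m * (2 * c) := by simp

lemma distInt_le (t : ℝ) : distInt t ≤ |t| := by
  unfold distInt
  have := round_le t 0
  simpa using this

/-- The number of points is bounded. -/
lemma bdd (m : ℕ) (δ : ℝ) (hδ : 0 < δ) (X : ℝ) :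
    BddAbove {n : ℕ | Admissible (bn m) X δ n} := by
  classical
  set η : ℝ := δ / (2 * m + 1) with hη
  have hη0 : 0 < η := by positivity
  set M : ℕ := ⌈|X| / η⌉₊ + 1 with hM
  set T : Finset (Fin (m * 2) → ℤ) :=
    Fintype.piFinset (fun _ => Finset.Icc (-(M : ℤ)) (M : ℤ)) with hT
  refine ⟨T.card, ?_⟩
  rintro n ⟨c, p, hp1, hp2⟩
  set f : Fin n → (Fin (m * 2) → ℤ) := fun i k => ⌊(p i - c) k / η⌋ with hf
  have hmem : ∀ i, f i ∈ T := by
    intro i
    rw [hT, Fintype.mem_piFinset]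
    intro k
    have h1 : |(p i - c) k| ≤ |X| := (abs_le_bn m _ k).trans ((hp1 i).trans (le_abs_self X))
    have h2 : |(p i - c) k / η| ≤ |X| / η := by
      rw [abs_div, abs_of_pos hη0]
      exact div_le_div_of_nonneg_right h1 hη0.le
    have h3 : |X| / η ≤ (⌈|X| / η⌉₊ : ℝ) := Nat.le_ceil _
    have h4 := abs_le.mp (h2.trans h3)
    rw [Finset.mem_Icc]
    constructor
    · rw [Int.le_floor]
      push_cast [hM]
      linarith [h4.1]
    · have h5 : ((f i k : ℤ) : ℝ) ≤ (p i - c) k / η := Int.floor_le _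
      have h6 : ((f i k : ℤ) : ℝ) ≤ ((M : ℤ) : ℝ) := by
        push_cast [hM]
        linarith [h4.2]
      exact_mod_cast h6
  have hinj : Function.Injective f := by
    intro i j hij
    by_contra hne
    have h1 := hp2 i j hne
    have h2 : ∀ k, |(p i - p j) k| ≤ η := by
      intro k
      have h3 : ⌊(p i - c) k / η⌋ = ⌊(p j - c) k / η⌋ := congrFun hij k
      have h4 := Int.abs_sub_lt_one_of_floor_eq_floor h3
      rw [← sub_div, abs_div, abs_of_pos hη0, div_lt_one hη0] at h4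
      have h5 : (p i - c) k - (p j - c) k = (p i - p j) k := by simp
      rw [h5] at h4
      exact h4.le
    have h6 := bn_le m (p i - p j) η h2
    have h7 : (0:ℝ) ≤ bn m (p i - p j) := by
      unfold bn
      exact Finset.sum_nonneg (fun _ _ => Real.sqrt_nonneg _)
    have h8 := distInt_le (bn m (p i - p j))
    rw [abs_of_nonneg h7] at h8
    have h9 : (m : ℝ) * (2 * η) < δ := by
      have e : η * (2 * m + 1) = δ := by rw [hη]; field_simp
      nlinarith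
    linarith
  have := Finset.card_le_card_of_injOn f (s := (Finset.univ : Finset (Fin n))) (t := T)
    (fun i _ => hmem i) (hinj.injOn)
  simpa using this

/-! ### The product set -/

/-- The point with word `β`. -/
noncomputable def pt (m R : ℕ) (θ : ℝ) {S : ℕ} (β : Fin m → Fin S → Bool) : Fin (m * 2) → ℝ :=
  fun i => if (finProdFinEquiv.symm i).2 = 0 then
      (R : ℝ) * sm ((R : ℝ) ^ 2) (β (finProdFinEquiv.symm i).1)
    else Real.sqrt (2 * θ * R) * sm (R : ℝ) (β (finProdFinEquiv.symm i).1)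

lemma pt_zero (m R : ℕ) (θ : ℝ) {S : ℕ} (β : Fin m → Fin S → Bool) (j : Fin m) :
    pt m R θ β (finProdFinEquiv (j, 0)) = (R : ℝ) * sm ((R : ℝ) ^ 2) (β j) := by
  unfold pt
  simp

lemma pt_one (m R : ℕ) (θ : ℝ) {S : ℕ} (β : Fin m → Fin S → Bool) (j : Fin m) :
    pt m R θ β (finProdFinEquiv (j, 1)) = Real.sqrt (2 * θ * R) * sm (R : ℝ) (β j) := by
  unfold pt
  simp

lemma le_distInt_of {t f δ : ℝ} (z : ℤ) (ht : t = z + f) (h1 : δ ≤ f) (h2 : f ≤ 1 - δ) :
    δ ≤ distInt t := by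
  unfold distInt
  set k := round t
  rcases le_or_gt k z with h | h
  · have : ((k : ℤ) : ℝ) ≤ z := by exact_mod_cast h
    refine le_trans ?_ (le_abs_self _)
    linarith
  · have : ((z : ℤ) : ℝ) + 1 ≤ k := by exact_mod_cast h
    refine le_trans ?_ (neg_le_abs _)
    linarith

lemma separated (m : ℕ) (hm : 1 ≤ m) {S : ℕ} (β β' : Fin m → Fin S → Bool) (h : β ≠ β') :
    (1 / (m + 1) / 2 : ℝ) ≤ distInt (bn m (pt m (8 * m) (1 / (m + 1)) β
      - pt m (8 * m) (1 / (m + 1)) β')) := by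
  classical
  set θ : ℝ := 1 / (m + 1) with hθ
  have hm1 : (1 : ℝ) ≤ m := by exact_mod_cast hm
  have hθ0 : 0 < θ := by positivity
  have hθm : θ * (m + 1) = 1 := by rw [hθ]; field_simp
  have hθ1 : θ ≤ 1 := by nlinarith
  have hR8 : 8 ≤ 8 * m := by omega
  have hRr : ((8 * m : ℕ) : ℝ) = 8 * m := by push_cast; ring
  -- every block
  have hblock : ∀ j : Fin m, ∃ z : ℤ,
      |Real.sqrt ((pt m (8 * m) θ β - pt m (8 * m) θ β') (finProdFinEquiv (j, 0)) ^ 2
        + (pt m (8 * m) θ β - pt m (8 * m) θ β') (finProdFinEquiv (j, 1)) ^ 2) - z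
        - (if β j = β' j then 0 else θ)| ≤ (if β j = β' j then 0 else θ / (2 * m)) := by
    intro j
    simp only [Pi.sub_apply, pt_zero, pt_one]
    by_cases hj : β j = β' j
    · refine ⟨0, ?_⟩
      rw [hj]
      simp
    · obtain ⟨z, hz⟩ := planar (8 * m) θ hR8 hθ0 hθ1 (β j) (β' j) hj
      refine ⟨z, ?_⟩
      rw [if_neg hj, if_neg hj]
      have e : 4 * θ / ((8 * m : ℕ) : ℝ) = θ / (2 * m) := by
        rw [hRr]
        field_simp
        ring
      rw [e] at hz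
      exact hz
  choose z hz using hblock
  set J : Finset (Fin m) := Finset.univ.filter (fun j => ¬ β j = β' j) with hJ
  have hJne : 1 ≤ J.card := by
    rw [Nat.one_le_iff_ne_zero, Finset.card_ne_zero]
    obtain ⟨j, hj⟩ := Function.ne_iff.mp h
    exact ⟨j, by rw [hJ, Finset.mem_filter]; exact ⟨Finset.mem_univ _, hj⟩⟩
  have hJm : J.card ≤ m := by
    have := Finset.card_le_univ J
    simpa using this
  have hs1 : ∑ j : Fin m, (if β j = β' j then (0:ℝ) else θ) = J.card * θ := by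
    rw [hJ]
    simp only [Finset.sum_ite, Finset.sum_const_zero, zero_add, Finset.sum_const, nsmul_eq_mul]
  have hs2 : ∑ j : Fin m, (if β j = β' j then (0:ℝ) else θ / (2 * m)) = J.card * (θ / (2 * m)) := by
    rw [hJ]
    simp only [Finset.sum_ite, Finset.sum_const_zero, zero_add, Finset.sum_const, nsmul_eq_mul]
  have hsum : |bn m (pt m (8 * m) θ β - pt m (8 * m) θ β') - ((∑ j, z j : ℤ) : ℝ)
      - J.card * θ| ≤ J.card * (θ / (2 * m)) := by
    unfold bn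
    rw [← hs1, ← hs2]
    push_cast
    rw [← Finset.sum_sub_distrib, ← Finset.sum_sub_distrib]
    exact (Finset.abs_sum_le_sum_abs _ _).trans (Finset.sum_le_sum (fun j _ => hz j))
  have hc1 : (1 : ℝ) ≤ J.card := by exact_mod_cast hJne
  have hcm : (J.card : ℝ) ≤ m := by exact_mod_cast hJm
  have herr : J.card * (θ / (2 * m)) ≤ θ / 2 := by
    have h0 : 0 ≤ θ / (2 * m) := by positivity
    calc (J.card : ℝ) * (θ / (2 * m)) ≤ m * (θ / (2 * m)) := mul_le_mul_of_nonneg_right hcm h0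
      _ = θ / 2 := by field_simp
  have h1 := abs_le.mp (hsum.trans herr)
  refine le_distInt_of (∑ j, z j) (f := bn m (pt m (8 * m) θ β - pt m (8 * m) θ β')
    - ((∑ j, z j : ℤ) : ℝ)) (by ring) ?_ ?_
  · have : θ ≤ J.card * θ := by nlinarith
    linarith [h1.1]
  · have : J.card * θ ≤ m * θ := mul_le_mul_of_nonneg_right hcm hθ0.le
    have h3 : m * θ = 1 - θ := by linarith
    linarith [h1.2]

lemma bn_pt_le (m : ℕ) (hm : 1 ≤ m) {S : ℕ} (β : Fin m → Fin S → Bool) :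
    bn m (pt m (8 * m) (1 / (m + 1)) β) ≤ m * (2 * ((8 * m) * ((8 * m : ℝ) ^ 2) ^ S)) := by
  have hm1 : (1 : ℝ) ≤ m := by exact_mod_cast hm
  have hθ1 : (1 / (m + 1) : ℝ) ≤ 1 := by
    rw [div_le_one (by positivity)]; linarith
  have hθ0 : (0:ℝ) < 1 / (m + 1) := by positivity
  apply bn_le
  intro i
  obtain ⟨q, rfl⟩ := finProdFinEquiv.surjective i
  obtain ⟨j, l⟩ := q
  have hR : (8:ℝ) ≤ 8 * m := by linarith
  have hq : ((8 * m : ℕ) : ℝ) = 8 * m := by push_cast; ring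
  fin_cases l
  · change |pt m (8 * m) (1 / (m + 1)) β (finProdFinEquiv (j, 0))| ≤ _
    rw [pt_zero, hq]
    have h1 := sm_le ((8 * m : ℝ) ^ 2) (by nlinarith) (β j)
    have h0 := sm_nonneg ((8 * m : ℝ) ^ 2) (by positivity) (β j)
    rw [abs_of_nonneg (by positivity)]
    exact mul_le_mul_of_nonneg_left h1 (by positivity)
  · change |pt m (8 * m) (1 / (m + 1)) β (finProdFinEquiv (j, 1))| ≤ _
    rw [pt_one, hq]
    have h1 := sm_le (8 * m : ℝ) (by linarith) (β j)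
    have h0 := sm_nonneg (8 * m : ℝ) (by positivity) (β j)
    rw [abs_of_nonneg (by positivity)]
    have h2 : Real.sqrt (2 * (1 / (m + 1)) * (8 * m)) ≤ 8 * m := by
      apply Real.sqrt_le_iff.mpr
      refine ⟨by positivity, ?_⟩
      have h3 : 2 * (1 / (m + 1)) * (8 * m : ℝ) ≤ 2 * (8 * m) := by nlinarith
      nlinarith
    have h4 : (8 * m : ℝ) ^ S ≤ ((8 * m : ℝ) ^ 2) ^ S := by
      apply pow_le_pow_left₀ (by positivity)
      nlinarith
    exact mul_le_mul h2 (h1.trans h4) h0 (by positivity)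

lemma admissible_pow (m : ℕ) (hm : 1 ≤ m) (S : ℕ) (X : ℝ)
    (hX : m * (2 * ((8 * m) * ((8 * m : ℝ) ^ 2) ^ S)) ≤ X) :
    Admissible (bn m) X (1 / (m + 1) / 2) ((2 ^ S) ^ m) := by
  classical
  have hcard : Fintype.card (Fin m → Fin S → Bool) = (2 ^ S) ^ m := by
    simp
  set E := (Fintype.equivFinOfCardEq hcard).symm
  refine ⟨0, fun i => pt m (8 * m) (1 / (m + 1)) (E i), ?_, ?_⟩
  · intro i
    rw [sub_zero]
    exact (bn_pt_le m hm _).trans hX
  · intro i j hij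
    exact separated m hm (E i) (E j) (fun h => hij (E.injective h))

lemma exists_m (k : ℕ) : ∃ m : ℕ, 1 ≤ m ∧ (((8 * m : ℝ)) ^ 2) ^ k ≤ 2 ^ m := by
  have h := tendsto_pow_const_div_const_pow_of_one_lt (2 * k) (r := (2:ℝ)) (by norm_num)
  have h2 : ∀ᶠ m : ℕ in atTop, ((m : ℝ) ^ (2 * k) / 2 ^ m) < 1 / 64 ^ k :=
    h.eventually (gt_mem_nhds (by positivity))
  obtain ⟨m, hm1, hm2⟩ := ((eventually_ge_atTop 1).and h2).exists
  refine ⟨m, hm1, ?_⟩
  rw [div_lt_div_iff₀ (by positivity) (by positivity)] at hm2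
  have e : ((8 * m : ℝ) ^ 2) ^ k = (m : ℝ) ^ (2 * k) * 64 ^ k := by
    rw [show ((8 * m : ℝ) ^ 2) = (m : ℝ) ^ 2 * 64 by ring, mul_pow, ← pow_mul]
  rw [e]
  linarith

/-- **Polynomial growth of every order.**  For every real `κ` there are a dimension `d ≥ 1`, a
`δ` in `(0, 1/2)` and a norm on `ℝ^d` for which the maximal size of a set in a ball of radius
`X` with all distances at least `δ` away from the integers is finite for every `X` and grows
faster than `X ^ κ`. -/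
theorem result (κ : ℝ) :
    ∃ (d : ℕ) (δ : ℝ) (N : (Fin d → ℝ) → ℝ), 1 ≤ d ∧ 0 < δ ∧ δ < 1 / 2 ∧ IsNorm N ∧
      (∀ X : ℝ, BddAbove {n : ℕ | Admissible N X δ n}) ∧
      Tendsto (fun X : ℝ => (maxPts N X δ : ℝ) / X ^ κ) atTop atTop := by
  obtain ⟨k, hk⟩ := exists_nat_ge (κ + 1)
  obtain ⟨m, hm, hmk⟩ := exists_m k
  have hm1 : (1 : ℝ) ≤ m := by exact_mod_cast hm
  have hδ : (0:ℝ) < 1 / (m + 1) / 2 := by positivity
  have hδ2 : (1:ℝ) / (m + 1) / 2 < 1 / 2 := by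
    have : (1:ℝ) / (m + 1) < 1 := by
      rw [div_lt_one (by positivity)]; linarith
    linarith
  refine ⟨m * 2, 1 / (m + 1) / 2, bn m, by omega, hδ, hδ2, bn_isNorm m,
    bdd m _ hδ, ?_⟩
  set C0 : ℝ := m * (2 * (8 * m)) with hC0
  have hC0p : 0 < C0 := by positivity
  set Q : ℝ := (8 * m : ℝ) ^ 2 with hQ
  have hQ1 : 1 < Q := by rw [hQ]; nlinarith
  set C : ℝ := C0 * Q with hC
  have hCp : 0 < C := by positivity
  -- polynomial lower bound
  have hlow : ∀ X : ℝ, C0 ≤ X → (X / C) ^ k ≤ (maxPts (bn m) X (1 / (m + 1) / 2) : ℝ) := by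
    intro X hX
    have hx1 : 1 ≤ X / C0 := by rwa [one_le_div hC0p]
    obtain ⟨S, hS1, hS2⟩ := exists_nat_pow_near hx1 hQ1
    have hadm : Admissible (bn m) X (1 / (m + 1) / 2) ((2 ^ S) ^ m) := by
      apply admissible_pow m hm S X
      rw [le_div_iff₀ hC0p] at hS1
      calc (m : ℝ) * (2 * ((8 * m) * ((8 * m : ℝ) ^ 2) ^ S)) = Q ^ S * C0 := by
            rw [hC0, hQ]; ring
        _ ≤ X := hS1
    have h1 : (2 ^ S) ^ m ≤ maxPts (bn m) X (1 / (m + 1) / 2) :=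
      le_csSup (bdd m _ hδ X) hadm
    have h2 : (((2 ^ S) ^ m : ℕ) : ℝ) ≤ (maxPts (bn m) X (1 / (m + 1) / 2) : ℝ) := by
      exact_mod_cast h1
    refine le_trans ?_ h2
    have h3 : X / C ≤ Q ^ S := by
      rw [div_lt_iff₀ hC0p] at hS2
      rw [div_le_iff₀ hCp, hC]
      calc X ≤ Q ^ (S + 1) * C0 := hS2.le
        _ = Q ^ S * (C0 * Q) := by ring
    have h4 : 0 ≤ X / C := by
      apply div_nonneg _ hCp.le
      linarith
    calc (X / C) ^ k ≤ (Q ^ S) ^ k := pow_le_pow_left₀ h4 h3 k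
      _ = (Q ^ k) ^ S := pow_right_comm Q S k
      _ ≤ (2 ^ m) ^ S := pow_le_pow_left₀ (by positivity) hmk S
      _ = (((2 ^ S) ^ m : ℕ) : ℝ) := by
        push_cast
        exact pow_right_comm 2 m S
  have hlim : Tendsto (fun X : ℝ => X * (1 / C ^ k)) atTop atTop :=
    tendsto_id.atTop_mul_const (by positivity)
  refine tendsto_atTop_mono' atTop ?_ hlim
  filter_upwards [eventually_ge_atTop C0, eventually_ge_atTop (1:ℝ)] with X hX hX1
  have hX0 : 0 < X := by linarith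
  rw [le_div_iff₀ (Real.rpow_pos_of_pos hX0 κ)]
  refine le_trans ?_ (hlow X hX)
  have h5 : X * X ^ κ ≤ X ^ k := by
    calc X * X ^ κ = X ^ (κ + 1) := by
          rw [Real.rpow_add hX0, Real.rpow_one]; ring
      _ ≤ X ^ (k : ℝ) := Real.rpow_le_rpow_of_exponent_le hX1 hk
      _ = X ^ k := Real.rpow_natCast X k
  calc X * (1 / C ^ k) * X ^ κ = (X * X ^ κ) * (1 / C ^ k) := by ring
    _ ≤ X ^ k * (1 / C ^ k) := mul_le_mul_of_nonneg_right h5 (by positivity)
    _ = (X / C) ^ k := by rw [div_pow]; ring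

end Pool.Agent.Results.MP_af7c6a_co.AnyPolynomialGrowth
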